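import Pool.Agent.Lib.MP_0a5adf_nt.TP.Interfaces

/-!
Project TAO+, module HEAD.
-/

set_option autoImplicit false

namespace Pool.Agent.Lib.MP_0a5adf_nt.H19

open Finset Pool.Agent.Lib.MP_0a5adf_nt.TP

/-- `2` is invertible modulo `3 ^ n`. -/
theorem two_mul_inv (n : ℕ) : (2 : ZMod (3 ^ n)) * (2 : ZMod (3 ^ n))⁻¹ = 1 := by
  have h : Nat.Coprime 2 (3 ^ n) := Nat.Coprime.pow_right n (by norm_num)
  have := ZMod.coe_mul_inv_eq_one (n := 3 ^ n) 2 h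
  simpa using this

/-- The reduction of `1/2` is `1/2`. -/
theorem cast_inv_two {m n : ℕ} (h : 3 ^ m ∣ 3 ^ n) :
    ZMod.castHom h (ZMod (3 ^ m)) ((2 : ZMod (3 ^ n))⁻¹) = (2 : ZMod (3 ^ m))⁻¹ := by
  have h1 : (2 : ZMod (3 ^ m)) * ZMod.castHom h (ZMod (3 ^ m)) ((2 : ZMod (3 ^ n))⁻¹) = 1 := by
    have := congrArg (ZMod.castHom h (ZMod (3 ^ m))) (two_mul_inv n)
    rwa [map_mul, map_one, map_ofNat] at this
  calc ZMod.castHom h (ZMod (3 ^ m)) ((2 : ZMod (3 ^ n))⁻¹)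
      = ((2 : ZMod (3 ^ m)) * (2 : ZMod (3 ^ m))⁻¹) *
        ZMod.castHom h (ZMod (3 ^ m)) ((2 : ZMod (3 ^ n))⁻¹) := by rw [two_mul_inv, one_mul]
    _ = (2 : ZMod (3 ^ m))⁻¹ *
        ((2 : ZMod (3 ^ m)) * ZMod.castHom h (ZMod (3 ^ m)) ((2 : ZMod (3 ^ n))⁻¹)) := by ring
    _ = (2 : ZMod (3 ^ m))⁻¹ := by rw [h1, mul_one]

/-- The reduction of `xz`. -/
theorem cast_xz {m n : ℕ} (h : 3 ^ m ∣ 3 ^ n) (S : Finset ℕ) :
    ZMod.castHom h (ZMod (3 ^ m)) (xz (3 ^ n) S) = xz (3 ^ m) S := by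
  unfold xz
  rw [map_sum]
  refine Finset.sum_congr rfl fun x _ => ?_
  rw [map_mul, map_pow, map_pow, cast_inv_two, map_ofNat]

/-- The standard character at multiples of `3 ^ k`. -/
theorem char_mul_pow (k k' : ℕ) (z : ZMod (3 ^ (k + k'))) :
    ZMod.stdAddChar ((3 : ZMod (3 ^ (k + k'))) ^ k * z) =
      ZMod.stdAddChar (ZMod.castHom (pow_dvd_pow 3 (Nat.le_add_left k' k)) (ZMod (3 ^ k')) z) := by
  obtain ⟨j, rfl⟩ := ZMod.intCast_surjective z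
  have h1 : (3 : ZMod (3 ^ (k + k'))) ^ k * (j : ZMod (3 ^ (k + k'))) =
      ((3 ^ k * j : ℤ) : ZMod (3 ^ (k + k'))) := by push_cast; ring
  rw [h1, map_intCast (ZMod.castHom (pow_dvd_pow 3 (Nat.le_add_left k' k)) (ZMod (3 ^ k'))) j,
    ZMod.stdAddChar_coe, ZMod.stdAddChar_coe]
  congr 1
  push_cast
  rw [pow_add]
  field_simp

/-- Units modulo `3 ^ n`, `n ≥ 1`. -/
theorem not_dvd_iff {n : ℕ} (hn : 1 ≤ n) (z : ZMod (3 ^ n)) :
    ¬ 3 ∣ z.val ↔ IsUnit z := by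
  have h3 : Nat.Coprime z.val (3 ^ n) ↔ ¬ 3 ∣ z.val := by
    rw [Nat.coprime_pow_right_iff (by omega), Nat.coprime_comm,
      Nat.Prime.coprime_iff_not_dvd Nat.prime_three]
  rw [← h3]
  constructor
  · intro h
    have := (ZMod.isUnit_iff_coprime z.val (3 ^ n)).2 h
    rwa [ZMod.natCast_zmod_val] at this
  · intro h
    rw [← ZMod.natCast_zmod_val z] at h
    exact (ZMod.isUnit_iff_coprime z.val (3 ^ n)).1 h

/-- Orthogonality. -/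
theorem sum_norm_sq {n : ℕ} (F : Finset (Finset ℕ))
    (hF : Set.InjOn (xz (3 ^ n)) (F : Set (Finset ℕ))) :
    ∑ ξ : ZMod (3 ^ n), ‖∑ A ∈ F, (ZMod.stdAddChar (ξ * xz (3 ^ n) A) : ℂ)‖ ^ 2 =
      3 ^ n * F.card := by
  have key : ((∑ ξ : ZMod (3 ^ n), ‖∑ A ∈ F, (ZMod.stdAddChar (ξ * xz (3 ^ n) A) : ℂ)‖ ^ 2 : ℝ) : ℂ)
      = 3 ^ n * F.card := by
    push_cast
    have h1 : ∀ ξ : ZMod (3 ^ n),
        ((‖∑ A ∈ F, (ZMod.stdAddChar (ξ * xz (3 ^ n) A) : ℂ)‖ : ℂ)) ^ 2 =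
        ∑ A ∈ F, ∑ A' ∈ F, (ZMod.stdAddChar (ξ * (xz (3 ^ n) A - xz (3 ^ n) A')) : ℂ) := by
      intro ξ
      rw [← Complex.mul_conj', map_sum, Finset.sum_mul_sum]
      refine Finset.sum_congr rfl fun A _ => Finset.sum_congr rfl fun A' _ => ?_
      rw [mul_sub, sub_eq_add_neg, AddChar.map_add_eq_mul, AddChar.map_neg_eq_conj]
    rw [Finset.sum_congr rfl fun ξ _ => h1 ξ, Finset.sum_comm]
    have h2 : ∀ A ∈ F, ∑ ξ : ZMod (3 ^ n), ∑ A' ∈ F,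
        (ZMod.stdAddChar (ξ * (xz (3 ^ n) A - xz (3 ^ n) A')) : ℂ) = 3 ^ n := by
      intro A hA
      rw [Finset.sum_comm]
      have h3 : ∀ A' ∈ F, ∑ ξ : ZMod (3 ^ n),
          (ZMod.stdAddChar (ξ * (xz (3 ^ n) A - xz (3 ^ n) A')) : ℂ) =
          if A' = A then (3 ^ n : ℂ) else 0 := by
        intro A' hA'
        rw [AddChar.sum_mulShift _ (ZMod.isPrimitive_stdAddChar (3 ^ n))]
        by_cases hAA : A' = A
        · subst hAA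
          simp [ZMod.card]
        · have h4 : ¬ (xz (3 ^ n) A - xz (3 ^ n) A' = 0) := by
            intro h
            exact hAA (hF hA' hA (sub_eq_zero.1 h).symm)
          rw [if_neg hAA, if_neg h4, Nat.cast_zero]
      rw [Finset.sum_congr rfl h3, Finset.sum_ite_eq' F A, if_pos hA]
    rw [Finset.sum_congr rfl h2, Finset.sum_const, nsmul_eq_mul]
    ring
  exact_mod_cast key

/-- HEAD. -/
theorem head (h1 : OscL2Statement) (h2 : CatStatement) : HeadStatement := by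
  classical
  intro k k' a c F ε hk' hac hF hinj hε hFc
  set n := k + k' with hn
  have hn1 : 1 ≤ n := by omega
  set g : ZMod (3 ^ n) → ℝ := fun X => (((F ×ˢ Fam k' (c - a)).filter
      fun p => xz (3 ^ n) (cat a p.1 p.2) = X).card : ℝ) / 2 ^ c with hg
  -- the transform
  have htr : ∀ ξ : ZMod (3 ^ n), ∑ X : ZMod (3 ^ n), (g X : ℂ) * ZMod.stdAddChar (ξ * X) =
      (∑ A ∈ F, (ZMod.stdAddChar (ξ * xz (3 ^ n) A) : ℂ)) / 2 ^ a *
        Fc k' (c - a) (ZMod.castHom (pow_dvd_pow 3 (Nat.le_add_left k' k)) (ZMod (3 ^ k'))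
          (ξ * (2 : ZMod (3 ^ n))⁻¹ ^ a)) := by
    intro ξ
    have e1 : ∑ X : ZMod (3 ^ n), (g X : ℂ) * ZMod.stdAddChar (ξ * X) =
        (∑ p ∈ F ×ˢ Fam k' (c - a),
          (ZMod.stdAddChar (ξ * xz (3 ^ n) (cat a p.1 p.2)) : ℂ)) / 2 ^ c := by
      rw [← Finset.sum_fiberwise (F ×ˢ Fam k' (c - a))
        (fun p => xz (3 ^ n) (cat a p.1 p.2))
        (fun p => (ZMod.stdAddChar (ξ * xz (3 ^ n) (cat a p.1 p.2)) : ℂ)), Finset.sum_div]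
      refine Finset.sum_congr rfl fun X _ => ?_
      have : ∑ p ∈ (F ×ˢ Fam k' (c - a)).filter (fun p => xz (3 ^ n) (cat a p.1 p.2) = X),
          (ZMod.stdAddChar (ξ * xz (3 ^ n) (cat a p.1 p.2)) : ℂ) =
          (((F ×ˢ Fam k' (c - a)).filter
            (fun p => xz (3 ^ n) (cat a p.1 p.2) = X)).card : ℂ) * ZMod.stdAddChar (ξ * X) := by
        rw [Finset.sum_congr rfl (g := fun _ => (ZMod.stdAddChar (ξ * X) : ℂ)), Finset.sum_const,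
          nsmul_eq_mul]
        intro p hp
        rw [(Finset.mem_filter.1 hp).2]
      rw [this, hg]
      push_cast
      ring
    rw [e1, Finset.sum_product]
    have e2 : ∀ A ∈ F, ∀ B ∈ Fam k' (c - a),
        (ZMod.stdAddChar (ξ * xz (3 ^ n) (cat a A B)) : ℂ) =
        ZMod.stdAddChar (ξ * xz (3 ^ n) A) *
        ZMod.stdAddChar ((ZMod.castHom (pow_dvd_pow 3 (Nat.le_add_left k' k)) (ZMod (3 ^ k'))
          (ξ * (2 : ZMod (3 ^ n))⁻¹ ^ a)) * xz (3 ^ k') B) := by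
      intro A hA B hB
      have hA1 := (Finset.mem_powersetCard.1 (Finset.mem_filter.1 (hF hA)).1)
      have hB1 := (Finset.mem_powersetCard.1 (Finset.mem_filter.1 hB).1)
      have h3 := (h2 a (c - a) A B hA1.1 hB1.1).2.2.1 (3 ^ n)
      rw [h3, hA1.2]
      have h4 : ξ * (xz (3 ^ n) A + 3 ^ k * (2 : ZMod (3 ^ n))⁻¹ ^ a * xz (3 ^ n) B) =
          ξ * xz (3 ^ n) A + 3 ^ k * (ξ * (2 : ZMod (3 ^ n))⁻¹ ^ a * xz (3 ^ n) B) := by ring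
      rw [h4, AddChar.map_add_eq_mul]
      refine (congrArg (fun w : ℂ => (ZMod.stdAddChar (ξ * xz (3 ^ n) A) : ℂ) * w)
        (char_mul_pow k k' _)).trans ?_
      rw [map_mul (ZMod.castHom (pow_dvd_pow 3 (Nat.le_add_left k' k)) (ZMod (3 ^ k')))]
      rw [show (ZMod.castHom (pow_dvd_pow 3 (Nat.le_add_left k' k)) (ZMod (3 ^ k')))
        (xz (3 ^ (k + k')) B) = xz (3 ^ k') B from cast_xz _ B]
    have e3 : ∑ A ∈ F, ∑ B ∈ Fam k' (c - a),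
        (ZMod.stdAddChar (ξ * xz (3 ^ n) (cat a A B)) : ℂ) =
        (∑ A ∈ F, (ZMod.stdAddChar (ξ * xz (3 ^ n) A) : ℂ)) *
        ∑ B ∈ Fam k' (c - a), (ZMod.stdAddChar
          ((ZMod.castHom (pow_dvd_pow 3 (Nat.le_add_left k' k)) (ZMod (3 ^ k'))
          (ξ * (2 : ZMod (3 ^ n))⁻¹ ^ a)) * xz (3 ^ k') B) : ℂ) := by
      rw [Finset.sum_mul_sum]
      exact Finset.sum_congr rfl fun A hA => Finset.sum_congr rfl fun B hB => e2 A hA B hB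
    rw [e3]
    unfold Fc
    have h5 : (2 : ℂ) ^ c = 2 ^ a * 2 ^ (c - a) := by
      rw [← pow_add]; congr 1; omega
    rw [h5]
    field_simp
  refine (h1 n g hn1).trans ?_
  have hle : ∑ ξ ∈ univ.filter (fun ξ : ZMod (3 ^ n) => ¬ 3 ∣ ξ.val),
      ‖∑ X : ZMod (3 ^ n), (g X : ℂ) * ZMod.stdAddChar (ξ * X)‖ ^ 2 ≤
      (ε * √(3 ^ n * F.card) / 2 ^ a) ^ 2 := by
    calc ∑ ξ ∈ univ.filter (fun ξ : ZMod (3 ^ n) => ¬ 3 ∣ ξ.val),
          ‖∑ X : ZMod (3 ^ n), (g X : ℂ) * ZMod.stdAddChar (ξ * X)‖ ^ 2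
        ≤ ∑ ξ ∈ univ.filter (fun ξ : ZMod (3 ^ n) => ¬ 3 ∣ ξ.val),
          ‖∑ A ∈ F, (ZMod.stdAddChar (ξ * xz (3 ^ n) A) : ℂ)‖ ^ 2 * (ε ^ 2 / (2 ^ a) ^ 2) := by
          refine Finset.sum_le_sum fun ξ hξ => ?_
          have hξ1 := (Finset.mem_filter.1 hξ).2
          rw [htr ξ, norm_mul, norm_div, mul_pow, div_pow]
          have h6 : ‖Fc k' (c - a) (ZMod.castHom (pow_dvd_pow 3 (Nat.le_add_left k' k))
              (ZMod (3 ^ k')) (ξ * (2 : ZMod (3 ^ n))⁻¹ ^ a))‖ ≤ ε := by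
            apply hFc
            rw [not_dvd_iff hk']
            apply IsUnit.map
            refine IsUnit.mul ((not_dvd_iff hn1 ξ).1 hξ1) (IsUnit.pow a ?_)
            exact IsUnit.of_mul_eq_one _ (by rw [mul_comm]; exact two_mul_inv n)
          have h7 : ‖(2 : ℂ) ^ a‖ = 2 ^ a := by simp
          rw [h7]
          calc ‖∑ A ∈ F, (ZMod.stdAddChar (ξ * xz (3 ^ n) A) : ℂ)‖ ^ 2 / (2 ^ a) ^ 2 *
                ‖Fc k' (c - a) (ZMod.castHom (pow_dvd_pow 3 (Nat.le_add_left k' k))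
              (ZMod (3 ^ k')) (ξ * (2 : ZMod (3 ^ n))⁻¹ ^ a))‖ ^ 2
              ≤ ‖∑ A ∈ F, (ZMod.stdAddChar (ξ * xz (3 ^ n) A) : ℂ)‖ ^ 2 / (2 ^ a) ^ 2 * ε ^ 2 := by
                gcongr
            _ = _ := by ring
      _ = (∑ ξ ∈ univ.filter (fun ξ : ZMod (3 ^ n) => ¬ 3 ∣ ξ.val),
          ‖∑ A ∈ F, (ZMod.stdAddChar (ξ * xz (3 ^ n) A) : ℂ)‖ ^ 2) * (ε ^ 2 / (2 ^ a) ^ 2) := by
          rw [Finset.sum_mul]
      _ ≤ (∑ ξ : ZMod (3 ^ n),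
          ‖∑ A ∈ F, (ZMod.stdAddChar (ξ * xz (3 ^ n) A) : ℂ)‖ ^ 2) * (ε ^ 2 / (2 ^ a) ^ 2) := by
          refine mul_le_mul_of_nonneg_right ?_ (by positivity)
          exact Finset.sum_le_sum_of_subset_of_nonneg (Finset.filter_subset _ _)
            fun _ _ _ => by positivity
      _ = 3 ^ n * F.card * (ε ^ 2 / (2 ^ a) ^ 2) := by rw [sum_norm_sq F hinj]
      _ = (ε * √(3 ^ n * F.card) / 2 ^ a) ^ 2 := by
          rw [div_pow, mul_pow, Real.sq_sqrt (by positivity)]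
          ring
  calc √(∑ ξ ∈ univ.filter (fun ξ : ZMod (3 ^ n) => ¬ 3 ∣ ξ.val),
      ‖∑ X : ZMod (3 ^ n), (g X : ℂ) * ZMod.stdAddChar (ξ * X)‖ ^ 2)
      ≤ √((ε * √(3 ^ n * F.card) / 2 ^ a) ^ 2) := Real.sqrt_le_sqrt hle
    _ = ε * √(3 ^ n * F.card) / 2 ^ a := Real.sqrt_sq (by positivity)

end Pool.Agent.Lib.MP_0a5adf_nt.H19
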