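import Pool.Agent.Lib.MP_0a5adf_nt.TP.Interfaces

/-!
Project TAO+, modules SHIFT and CHAIN.
-/

set_option autoImplicit false

namespace Pool.Agent.Lib.MP_0a5adf_nt.H19

open Finset Pool.Agent.Lib.MP_0a5adf_nt.TP

theorem th_lower : (1.58 : ℝ) ≤ th := by
  unfold th
  rw [Real.le_logb_iff_rpow_le (by norm_num) (by norm_num)]
  have h : ((2 : ℝ) ^ (1.58 : ℝ)) ^ (50 : ℕ) ≤ 3 ^ (50 : ℕ) := by
    rw [← Real.rpow_natCast, ← Real.rpow_mul (by norm_num)]
    norm_num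
  exact le_of_pow_le_pow_left₀ (by norm_num) (by norm_num) h

theorem th_upper : th ≤ (1.6 : ℝ) := by
  unfold th
  rw [Real.logb_le_iff_le_rpow (by norm_num) (by norm_num)]
  have h : (3 : ℝ) ^ (5 : ℕ) ≤ ((2 : ℝ) ^ (1.6 : ℝ)) ^ (5 : ℕ) := by
    rw [← Real.rpow_natCast ((2 : ℝ) ^ (1.6 : ℝ)), ← Real.rpow_mul (by norm_num)]
    norm_num
  exact le_of_pow_le_pow_left₀ (by norm_num) (by positivity) h

theorem mu_lower : (0.2 : ℝ) ≤ mu := by
  have := th_upper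
  unfold mu
  linarith

theorem mu_upper : mu ≤ (0.21 : ℝ) := by
  have := th_lower
  unfold mu
  linarith

theorem inv_mono {d : Bool} {B : Set ℕ} {lo lo' : ℕ} {H H' : ℝ} (h : Inv d B lo H)
    (h1 : lo ≤ lo') (h2 : H' ≤ H) : Inv d B lo' H' := by
  intro n hn hn'
  exact h n ((Nat.pow_le_pow_right (by norm_num) h1).trans hn) (lt_of_lt_of_le hn' h2)

/-- `dev x ≤ x / 200` for large `x`. -/
theorem dev_small : ∃ x₀ : ℕ, ∀ x : ℕ, x₀ ≤ x → 200 * dev x + 200 ≤ x := by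
  have h : Filter.Tendsto (fun x : ℝ => x ^ (3 / 5 : ℝ) / x) Filter.atTop (nhds 0) := by
    have := tendsto_rpow_neg_atTop (y := 2 / 5) (by norm_num)
    refine this.congr' ?_
    filter_upwards [Filter.eventually_gt_atTop 0] with x hx
    rw [eq_div_iff hx.ne', ← Real.rpow_add_one hx.ne']
    norm_num
  have h2 : ∀ᶠ x : ℝ in Filter.atTop, x ^ (3 / 5 : ℝ) / x < 1 / 1000 :=
    h.eventually_lt_const (by norm_num)
  have h3 : ∀ᶠ x : ℝ in Filter.atTop, 200 * (x ^ (3 / 5 : ℝ) + 1) + 200 ≤ x := by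
    filter_upwards [h2, Filter.eventually_gt_atTop 0, Filter.eventually_ge_atTop 1000] with x hx h0 h1
    rw [div_lt_iff₀ h0] at hx
    linarith
  obtain ⟨X, hX⟩ := Filter.eventually_atTop.1 h3
  refine ⟨⌈X⌉₊, fun x hx => ?_⟩
  have h4 := hX x (Nat.ceil_le.1 hx)
  have h5 : (dev x : ℝ) ≤ (x : ℝ) ^ (3 / 5 : ℝ) + 1 := (Nat.ceil_lt_add_one (by positivity)).le
  have h6 : ((200 * dev x + 200 : ℕ) : ℝ) ≤ x := by
    push_cast
    linarith
  exact_mod_cast h6

theorem dev_mono {x y : ℕ} (h : x ≤ y) : dev x ≤ dev y := by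
  unfold dev
  apply Nat.ceil_mono
  apply Real.rpow_le_rpow (by positivity) (by exact_mod_cast h) (by norm_num)

/-- SHIFT. -/
theorem shift (hL : LogWinStatement) : ShiftStatement := by
  obtain ⟨C, K₀, hC, hW⟩ := hL
  obtain ⟨x₁, hx₁⟩ := dev_small
  refine ⟨4 * C, 2 * K₀ + x₁ + 1000, by positivity, ?_⟩
  intro d x a a' l h B hx ha ha' h8 h8' hl hh hh' hI
  have hdev := hx₁ x (by omega)
  set K := 97 * x / 100 with hK
  have hKx : dev K ≤ dev x := dev_mono (by omega)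
  -- the common part
  have main : ∀ b : ℕ, x ≤ b → 8 * b ≤ 9 * x → b + l + x / 100 ≤ h →
      |Alog B b l - Psi d B (x / 50) K l| ≤ C * dev K := by
    intro b hb h8b hbh
    have hKb : K ≤ b := by omega
    set i := ⌊((b : ℝ) - K) / mu⌋₊ with hi
    have hmu0 : 0 < mu := lt_of_lt_of_le (by norm_num) mu_lower
    have hbK : (0 : ℝ) ≤ (b : ℝ) - K := by
      have : (K : ℝ) ≤ b := by exact_mod_cast hKb
      linarith
    have hi1 : (i : ℝ) ≤ ((b : ℝ) - K) / mu := Nat.floor_le (by positivity)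
    have hi2 : ((b : ℝ) - K) / mu < i + 1 := Nat.lt_floor_add_one _
    rw [le_div_iff₀ hmu0] at hi1
    rw [div_lt_iff₀ hmu0] at hi2
    have hi0 : (0 : ℝ) ≤ i := Nat.cast_nonneg _
    have hml := mu_lower
    have hmup := mu_upper
    -- real versions of the floor bounds
    have hK1 : (97 * (x : ℝ) - 99) / 100 ≤ K := by
      have : 97 * x ≤ 100 * K + 99 := by omega
      have : (97 * (x : ℝ)) ≤ 100 * K + 99 := by exact_mod_cast this
      linarith
    have hK2 : (K : ℝ) ≤ 97 * x / 100 := by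
      have : 100 * K ≤ 97 * x := by omega
      have : 100 * (K : ℝ) ≤ 97 * x := by exact_mod_cast this
      linarith
    have hbx : (x : ℝ) ≤ b := by exact_mod_cast hb
    have h8b' : 8 * (b : ℝ) ≤ 9 * x := by exact_mod_cast h8b
    have hx1000 : (1000 : ℝ) ≤ x := by
      have : 1000 ≤ x := by omega
      exact_mod_cast this
    refine hW d K b l i (x / 50) K B (by omega) le_rfl (by omega) (by omega) ?_ ?_ ?_ (by omega) ?_
    · rw [abs_le]
      constructor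
      · nlinarith
      · nlinarith
    · have : 10 * (i : ℝ) ≤ 9 * b := by nlinarith
      exact_mod_cast this
    · have h5 : (5 * (x / 50) : ℕ) ≤ x / 10 := by omega
      have h6 : ((x / 10 : ℕ) : ℝ) ≤ i := by
        have h7 : ((x / 10 : ℕ) : ℝ) ≤ x / 10 := Nat.cast_div_le
        nlinarith
      exact h5.trans (by exact_mod_cast h6)
    · refine inv_mono hI (by omega) ?_
      have : b + l + 2 * dev K ≤ h := by omega
      exact pow_le_pow_right₀ (by norm_num) this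
  have e1 := main a ha h8 hh
  have e2 := main a' ha' h8' hh'
  have e3 : (dev K : ℝ) ≤ 2 * (x : ℝ) ^ (3 / 5 : ℝ) := by
    have h5 : (dev x : ℝ) ≤ (x : ℝ) ^ (3 / 5 : ℝ) + 1 := (Nat.ceil_lt_add_one (by positivity)).le
    have h6 : (1 : ℝ) ≤ (x : ℝ) ^ (3 / 5 : ℝ) := by
      apply Real.one_le_rpow _ (by norm_num)
      have : 1 ≤ x := by omega
      exact_mod_cast this
    have h7 : (dev K : ℝ) ≤ dev x := by exact_mod_cast hKx
    linarith
  calc |Alog B a l - Alog B a' l|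
      = |(Alog B a l - Psi d B (x / 50) K l) - (Alog B a' l - Psi d B (x / 50) K l)| := by
        congr 1; ring
    _ ≤ |Alog B a l - Psi d B (x / 50) K l| + |Alog B a' l - Psi d B (x / 50) K l| := abs_sub _ _
    _ ≤ C * dev K + C * dev K := add_le_add e1 e2
    _ ≤ C * (2 * (x : ℝ) ^ (3 / 5 : ℝ)) + C * (2 * (x : ℝ) ^ (3 / 5 : ℝ)) := by gcongr
    _ = 4 * C * (x : ℝ) ^ (3 / 5 : ℝ) := by ring

/-- Additivity of the logarithmic mass. -/
theorem Alog_add (B : Set ℕ) (a l l' : ℕ) :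
    Alog B a (l + l') = Alog B a l + Alog B (a + l) l' := by
  classical
  unfold Alog blk
  rw [← Finset.sum_union]
  · congr 1
    rw [← Finset.filter_union, Finset.Ico_union_Ico_eq_Ico]
    · rw [add_assoc]
    · exact Nat.pow_le_pow_right (by norm_num) (by omega)
    · exact Nat.pow_le_pow_right (by norm_num) (by omega)
  · apply Finset.disjoint_filter_filter
    exact Finset.Ico_disjoint_Ico_consecutive _ _ _

/-- CHAIN. -/
theorem chain (hS : ShiftStatement) : ChainStatement := by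
  obtain ⟨C, x₀, hC, hS⟩ := hS
  set D : ℝ := 448 * C with hD
  refine ⟨5 * D, x₀, by positivity, ?_⟩
  intro d p₁ p h B hp₁ hp hh hI
  -- the elementary shift at level `q`
  have sh : ∀ q : ℕ, p₁ ≤ q → q ≤ p → ∀ u v l : ℕ, 512 ≤ u → u ≤ v → v ≤ 1024 → 8 * v ≤ 9 * u →
      10 * l ≤ u * 2 ^ q → l ≤ 2 ^ q →
      ∀ w : ℕ, u * 2 ^ q ≤ w → 8 * w ≤ 9 * (u * 2 ^ q) → w ≤ v * 2 ^ q →
      |Alog B w l - Alog B (u * 2 ^ q) l| ≤ 64 * C * (2 : ℝ) ^ (3 / 5 * (q : ℝ)) := by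
    intro q hq hqp u v l hu huv hv h8 hl hl2 w hw h8w hwv
    have h2q : 0 < 2 ^ q := by positivity
    have hqq : q < 2 ^ q := Nat.lt_two_pow_self
    have hqp' : (2 : ℕ) ^ q ≤ 2 ^ p := Nat.pow_le_pow_right (by norm_num) hqp
    have hp1q : (2 : ℕ) ^ p₁ ≤ 2 ^ q := Nat.pow_le_pow_right (by norm_num) hq
    have h512 : 512 * 2 ^ q ≤ u * 2 ^ q := Nat.mul_le_mul_right _ hu
    have h1024 : v * 2 ^ q ≤ 1024 * 2 ^ q := Nat.mul_le_mul_right _ hv
    have e10 : (2 : ℕ) ^ (p + 10) = 1024 * 2 ^ p := by rw [pow_add]; norm_num; ring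
    have e5 : (2 : ℕ) ^ (p + 5) = 32 * 2 ^ p := by rw [pow_add]; norm_num; ring
    have e8 : (2 : ℕ) ^ (p₁ + 8) = 256 * 2 ^ p₁ := by rw [pow_add]; norm_num; ring
    rw [e10, e5] at hh
    have hbound : w + l + (u * 2 ^ q) / 100 ≤ h := by omega
    have hbound' : u * 2 ^ q + l + (u * 2 ^ q) / 100 ≤ h := by omega
    have := hS d (u * 2 ^ q) w (u * 2 ^ q) l h B (by omega) hw le_rfl h8w (by omega) hl hbound
      hbound' (inv_mono hI (by rw [e8]; omega) le_rfl)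
    refine this.trans ?_
    have h3 : ((u * 2 ^ q : ℕ) : ℝ) ^ (3 / 5 : ℝ) ≤ 64 * (2 : ℝ) ^ (3 / 5 * (q : ℝ)) := by
      have h4 : ((u * 2 ^ q : ℕ) : ℝ) ≤ (2 : ℝ) ^ ((10 : ℝ) + q) := by
        rw [Real.rpow_add (by norm_num)]
        have : ((2 : ℝ) ^ (10 : ℝ)) = 1024 := by
          rw [show (10 : ℝ) = ((10 : ℕ) : ℝ) by norm_num, Real.rpow_natCast]; norm_num
        rw [this, Real.rpow_natCast]
        have : u * 2 ^ q ≤ 1024 * 2 ^ q := Nat.mul_le_mul_right _ (huv.trans hv)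
        exact_mod_cast this
      calc ((u * 2 ^ q : ℕ) : ℝ) ^ (3 / 5 : ℝ) ≤ ((2 : ℝ) ^ ((10 : ℝ) + q)) ^ (3 / 5 : ℝ) :=
            Real.rpow_le_rpow (by positivity) h4 (by norm_num)
        _ = (2 : ℝ) ^ ((6 : ℝ) + 3 / 5 * q) := by
            rw [← Real.rpow_mul (by norm_num)]; congr 1; ring
        _ = 64 * (2 : ℝ) ^ (3 / 5 * (q : ℝ)) := by
            rw [Real.rpow_add (by norm_num)]
            congr 1
            rw [show (6 : ℝ) = ((6 : ℕ) : ℝ) by norm_num, Real.rpow_natCast]; norm_num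
    calc C * ((u * 2 ^ q : ℕ) : ℝ) ^ (3 / 5 : ℝ) ≤ C * (64 * (2 : ℝ) ^ (3 / 5 * (q : ℝ))) := by
          gcongr
      _ = _ := by ring
  -- six shifts
  have six : ∀ q : ℕ, p₁ ≤ q → q ≤ p →
      Alog B (2 ^ (q + 10)) (2 ^ q) ≤ Alog B (2 ^ (q + 9)) (2 ^ q) +
        6 * (64 * C * (2 : ℝ) ^ (3 / 5 * (q : ℝ))) := by
    intro q hq hqp
    have e10 : (2 : ℕ) ^ (q + 10) = 1024 * 2 ^ q := by rw [pow_add]; norm_num; ring
    have e9 : (2 : ℕ) ^ (q + 9) = 512 * 2 ^ q := by rw [pow_add]; norm_num; ring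
    have h2q : 0 < 2 ^ q := by positivity
    rw [e10, e9]
    have s1 := sh q hq hqp 911 1024 (2 ^ q) (by norm_num) (by norm_num) (by norm_num) (by norm_num)
      (by omega) le_rfl (1024 * 2 ^ q) (by omega) (by omega) (by omega)
    have s2 := sh q hq hqp 810 911 (2 ^ q) (by norm_num) (by norm_num) (by norm_num) (by norm_num)
      (by omega) le_rfl (911 * 2 ^ q) (by omega) (by omega) (by omega)
    have s3 := sh q hq hqp 720 810 (2 ^ q) (by norm_num) (by norm_num) (by norm_num) (by norm_num)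
      (by omega) le_rfl (810 * 2 ^ q) (by omega) (by omega) (by omega)
    have s4 := sh q hq hqp 640 720 (2 ^ q) (by norm_num) (by norm_num) (by norm_num) (by norm_num)
      (by omega) le_rfl (720 * 2 ^ q) (by omega) (by omega) (by omega)
    have s5 := sh q hq hqp 569 640 (2 ^ q) (by norm_num) (by norm_num) (by norm_num) (by norm_num)
      (by omega) le_rfl (640 * 2 ^ q) (by omega) (by omega) (by omega)
    have s6 := sh q hq hqp 512 569 (2 ^ q) (by norm_num) (by norm_num) (by norm_num) (by norm_num)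
      (by omega) le_rfl (569 * 2 ^ q) (by omega) (by omega) (by omega)
    have t1 := (abs_le.1 s1).2
    have t2 := (abs_le.1 s2).2
    have t3 := (abs_le.1 s3).2
    have t4 := (abs_le.1 s4).2
    have t5 := (abs_le.1 s5).2
    have t6 := (abs_le.1 s6).2
    linarith
  -- exponents
  have hexp : ∀ q : ℕ, (2 : ℝ) ^ (3 / 5 * (q : ℝ)) / 2 ^ q = (2 : ℝ) ^ (-(2 / 5 * (q : ℝ))) := by
    intro q
    rw [← Real.rpow_natCast, ← Real.rpow_sub (by norm_num)]
    congr 1; ring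
  have hstep : ∀ q : ℕ, 5 / 4 * (2 : ℝ) ^ (-(2 / 5 * ((q + 1 : ℕ) : ℝ))) ≤
      (2 : ℝ) ^ (-(2 / 5 * (q : ℝ))) := by
    intro q
    have h1 : (5 / 4 : ℝ) ≤ (2 : ℝ) ^ (2 / 5 : ℝ) := by
      have : ((5 / 4 : ℝ)) ^ (5 : ℕ) ≤ ((2 : ℝ) ^ (2 / 5 : ℝ)) ^ (5 : ℕ) := by
        rw [← Real.rpow_natCast ((2 : ℝ) ^ (2 / 5 : ℝ)), ← Real.rpow_mul (by norm_num)]
        norm_num
      exact le_of_pow_le_pow_left₀ (by norm_num) (by positivity) this
    have h2 : (2 : ℝ) ^ (-(2 / 5 * (q : ℝ))) =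
        (2 : ℝ) ^ (2 / 5 : ℝ) * (2 : ℝ) ^ (-(2 / 5 * ((q + 1 : ℕ) : ℝ))) := by
      rw [← Real.rpow_add (by norm_num)]
      congr 1
      push_cast
      ring
    rw [h2]
    gcongr
  -- induction
  have claim : ∀ j : ℕ, p₁ + j ≤ p →
      Alog B (2 ^ (p₁ + j + 10)) (2 ^ (p₁ + j)) / 2 ^ (p₁ + j) ≤
        Alog B (2 ^ (p₁ + 9)) (2 ^ p₁) / 2 ^ p₁ + 5 * D * (2 : ℝ) ^ (-(2 / 5 * (p₁ : ℝ))) -
          4 * D * (2 : ℝ) ^ (-(2 / 5 * ((p₁ + j : ℕ) : ℝ))) := by
    intro j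
    induction j with
    | zero =>
      intro _
      simp only [add_zero]
      have h1 := six p₁ le_rfl hp
      have h2 : Alog B (2 ^ (p₁ + 10)) (2 ^ p₁) / 2 ^ p₁ ≤
          (Alog B (2 ^ (p₁ + 9)) (2 ^ p₁) + 6 * (64 * C * (2 : ℝ) ^ (3 / 5 * (p₁ : ℝ)))) / 2 ^ p₁ := by
        gcongr
      refine h2.trans ?_
      rw [add_div]
      have h3 : 6 * (64 * C * (2 : ℝ) ^ (3 / 5 * (p₁ : ℝ))) / 2 ^ p₁ =
          384 * C * (2 : ℝ) ^ (-(2 / 5 * (p₁ : ℝ))) := by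
        rw [← hexp]; ring
      rw [h3, hD]
      have h4 : (0 : ℝ) < (2 : ℝ) ^ (-(2 / 5 * (p₁ : ℝ))) := by positivity
      nlinarith [mul_pos hC h4]
    | succ j ih =>
      intro hj
      have ih := ih (by omega)
      set q := p₁ + j with hq
      have hq1 : p₁ + (j + 1) = q + 1 := by omega
      rw [hq1] at hj ⊢
      have h1 := six (q + 1) (by omega) hj
      -- halving
      have h2 : Alog B (2 ^ (q + 1 + 9)) (2 ^ (q + 1)) =
          Alog B (2 ^ (q + 10)) (2 ^ q) + Alog B (2 ^ (q + 10) + 2 ^ q) (2 ^ q) := by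
        rw [← Alog_add]
        congr 1
        rw [pow_succ]; ring
      have h3 : Alog B (2 ^ (q + 10) + 2 ^ q) (2 ^ q) ≤ Alog B (2 ^ (q + 10)) (2 ^ q) +
          64 * C * (2 : ℝ) ^ (3 / 5 * ((q + 1 : ℕ) : ℝ)) := by
        have h2q : 0 < 2 ^ q := by positivity
        have e10 : (2 : ℕ) ^ (q + 10) = 512 * 2 ^ (q + 1) := by
          rw [pow_add, pow_succ]; norm_num; ring
        have e1 : (2 : ℕ) ^ (q + 1) = 2 * 2 ^ q := by rw [pow_succ]; ring
        have s := sh (q + 1) (by omega) hj 512 569 (2 ^ q) (by norm_num) (by norm_num) (by norm_num)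
          (by norm_num) (by omega) (by omega) (2 ^ (q + 10) + 2 ^ q) (by omega) (by omega)
          (by omega)
        rw [← e10] at s
        have := (abs_le.1 s).2
        linarith
      have h4 : Alog B (2 ^ (q + 1 + 10)) (2 ^ (q + 1)) ≤
          2 * Alog B (2 ^ (q + 10)) (2 ^ q) + 448 * C * (2 : ℝ) ^ (3 / 5 * ((q + 1 : ℕ) : ℝ)) := by
        rw [h2] at h1
        linarith
      have h5 : Alog B (2 ^ (q + 1 + 10)) (2 ^ (q + 1)) / 2 ^ (q + 1) ≤
          (2 * Alog B (2 ^ (q + 10)) (2 ^ q) +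
            448 * C * (2 : ℝ) ^ (3 / 5 * ((q + 1 : ℕ) : ℝ))) / 2 ^ (q + 1) := by
        gcongr
      refine h5.trans ?_
      have h6 : (2 * Alog B (2 ^ (q + 10)) (2 ^ q) +
            448 * C * (2 : ℝ) ^ (3 / 5 * ((q + 1 : ℕ) : ℝ))) / 2 ^ (q + 1) =
          Alog B (2 ^ (q + 10)) (2 ^ q) / 2 ^ q +
            D * (2 : ℝ) ^ (-(2 / 5 * ((q + 1 : ℕ) : ℝ))) := by
        have e2 : (2 : ℝ) ^ (q + 1) = 2 * 2 ^ q := by rw [pow_succ]; ring
        rw [← hexp (q + 1), hD, add_div, e2]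
        have e3 : (2 : ℝ) ^ q ≠ 0 := by positivity
        generalize (2 : ℝ) ^ (3 / 5 * ((q + 1 : ℕ) : ℝ)) = W
        generalize Alog B (2 ^ (q + 10)) (2 ^ q) = V
        field_simp
      rw [h6]
      have h7 := hstep q
      have hDp : 0 < D := by positivity
      have h8 := mul_le_mul_of_nonneg_left h7 hDp.le
      linarith
  obtain ⟨j, rfl⟩ := Nat.exists_eq_add_of_le hp
  have := claim j le_rfl
  have h9 : (0 : ℝ) < (2 : ℝ) ^ (-(2 / 5 * ((p₁ + j : ℕ) : ℝ))) := by positivity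
  have hDp : 0 < D := by positivity
  nlinarith [mul_pos hDp h9]

end Pool.Agent.Lib.MP_0a5adf_nt.H19
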